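import Pool.Agent.Work.MP_d2e081_al.Main
import Pool.Agent.Work.MP_d2e081_al.Rips.E

/-! A finitely generated LEF group without finite quotients which maps onto a free product. -/

set_option autoImplicit false

namespace Pool.Agent.Work.MP_d2e081_al.Rip2

open Filter Monoid CoprodI

variable {K : Type} [Field K]

theorem exists_general [Group.FG (Gam K)] :
    ∃ ι : Bool → GG K, (∀ b n, ι b n ∈ EL K (Un K n)) ∧
      ∀ w, (∀ᶠ n in atTop, Ph ι w n = 1) → pr K w = 1 := by
  obtain ⟨α, _, f, hf⟩ := Group.fg_iff_exists_freeGroup_hom_surjective_finite.1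
    (fg_db (G := Gam K))
  have := hf.countable
  obtain ⟨e₀, he⟩ := exists_surjective_nat (Db (Gam K))
  let e : ℕ → Db (Gam K) := fun k => e₀ k.unpair.1
  obtain ⟨φ, hφ, h⟩ := extraction_forall_of_frequently
    (P := fun k n => ∃ ι : Bool → Ln K n, (∀ b, ι b ∈ EL K (Un K n)) ∧
      (ph n ι (e k) = 1 → pr K (e k) = 1)) fun k => by
    by_cases hk : pr K (e k) = 1
    · exact Frequently.of_forall fun n => ⟨1, fun _ => one_mem _, fun _ => hk⟩
    · exact ((free_level hk).frequently.filter_mono Nat.hyperfilter_le_atTop).mono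
        fun n ⟨ι, h1, h2⟩ => ⟨ι, h1, fun e => absurd e h2⟩
  have : ∀ n, ∃ ι : Bool → Ln K n, (∀ b, ι b ∈ EL K (Un K n)) ∧
      ∀ k, φ k = n → ph n ι (e k) = 1 → pr K (e k) = 1 := fun n => by
    by_cases hn : ∃ k, φ k = n
    · obtain ⟨k, rfl⟩ := hn
      obtain ⟨ι, h1, h2⟩ := h k
      exact ⟨ι, h1, fun k' e' => by rwa [hφ.injective e']⟩
    · exact ⟨1, fun _ => one_mem _, fun k e' => absurd ⟨k, e'⟩ hn⟩
  choose ι h1 h2 using this
  refine ⟨fun b n => ι n b, fun b n => h1 n b, fun w hw => ?_⟩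
  obtain ⟨a, rfl⟩ := he w
  obtain ⟨m, hm⟩ := eventually_atTop.1 hw
  have h4 : e (Nat.pair a m) = e₀ a := congrArg (fun p : ℕ × ℕ => e₀ p.1) (Nat.unpair_pair a m)
  have h3 : ∀ n, (Pi.evalMonoidHom _ n).comp (Ph fun b n => ι n b) = ph n (ι n) := fun n =>
    ext_hom _ _ fun b => rfl
  rw [← h4]
  refine h2 _ _ rfl ?_
  rw [← h3, h4]
  exact hm _ ((Nat.right_le_pair a m).trans (hφ.le_apply))

/-- The eventually trivial elements. -/
def Ev (H : Subgroup (GG K)) : Subgroup H where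
  carrier := {g | ∀ᶠ n in atTop, g.1 n = 1}
  one_mem' := Eventually.of_forall fun _ => rfl
  mul_mem' := fun h h' => (h.and h').mono fun n e => by simp [e.1, e.2]
  inv_mem' := fun h => h.mono fun n e => by simp [e]

instance (H : Subgroup (GG K)) : (Ev H).Normal :=
  ⟨fun _ h g => Eventually.mono h fun n e => by simp [e]⟩

theorem lef_Ev [Finite K] (H : Subgroup (GG K)) : LEF (H ⧸ Ev H) := fun S => by
  have h1 : ∀ᶠ n in atTop, ∀ p : S × S,
      (p.1.1 * p.2.1).out.1 n = p.1.1.out.1 n * p.2.1.out.1 n := eventually_all.2 fun p => by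
    have : ((p.1.1 * p.2.1).out : H ⧸ Ev H) = (p.1.1.out * p.2.1.out : H) := by simp
    exact Eventually.mono (QuotientGroup.eq.1 this) fun n e => inv_mul_eq_one.1 e
  have h2 : ∀ p : S × S, ∃ n, (∀ p : S × S,
      (p.1.1 * p.2.1).out.1 n = p.1.1.out.1 n * p.2.1.out.1 n) ∧
      (p.1.1.out.1 n = p.2.1.out.1 n → p.1.1 = p.2.1) := fun p => by
    by_cases h : p.1.1 = p.2.1
    · exact h1.exists.imp fun n e => ⟨e, fun _ => h⟩
    · have : ∃ᶠ n in atTop, p.1.1.out.1 n ≠ p.2.1.out.1 n := fun e =>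
        h ((QuotientGroup.out_eq' p.1.1).symm.trans ((QuotientGroup.eq.2
          (show p.1.1.out⁻¹ * p.2.1.out ∈ Ev H from Eventually.mono e fun n e =>
            inv_mul_eq_one.2 (not_not.1 e))).trans (QuotientGroup.out_eq' p.2.1)))
      exact (this.and_eventually h1).exists.imp fun n e => ⟨e.2, fun e' => absurd e' e.1⟩
  choose n h3 h4 using h2
  exact ⟨∀ p : S × S, Ln K (n p), inferInstance, inferInstance, fun q p => q.out.1 (n p),
    fun a ha b hb e => h4 (⟨a, ha⟩, ⟨b, hb⟩) (congrFun e _),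
    fun a ha b hb _ => funext fun p => h3 p (⟨a, ha⟩, ⟨b, hb⟩)⟩

theorem exists_lef [Finite K] [Group.FG (Gam K)] :
    ∃ (Q : Type) (_ : Group Q) (f : Q →* Db (QQ K)), Group.FG Q ∧ LEF Q ∧
      Function.Surjective f ∧ ∀ M : Subgroup Q, M.FiniteIndex → M = ⊤ := by
  obtain ⟨ι, h1, h2⟩ := exists_general (K := K)
  have := fg_db (G := Gam K)
  let ψ := (QuotientGroup.mk' (Ev (Ph ι).range)).comp (Ph ι).rangeRestrict
  have hψ : Function.Surjective ψ :=
    (QuotientGroup.mk'_surjective _).comp (Ph ι).rangeRestrict_surjective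
  have hk : ψ.ker ≤ (pr K).ker := fun w hw => h2 w ((QuotientGroup.eq_one_iff _).1 hw)
  refine ⟨_, inferInstance, ψ.liftOfSurjective hψ ⟨pr K, hk⟩, inferInstance, lef_Ev _,
    fun y => ?_, fun M _ => top_unique fun x _ => M.normalCore_le ?_⟩
  · obtain ⟨w, rfl⟩ := pr_surj y
    exact ⟨_, MonoidHom.liftOfRightInverse_comp_apply ψ _ (Function.rightInverse_surjInv hψ)
      ⟨pr K, hk⟩ w⟩
  · obtain ⟨x, rfl⟩ := QuotientGroup.mk'_surjective _ x
    let M' := FiniteIndexNormalSubgroup.comap (QuotientGroup.mk' (Ev (Ph ι).range))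
      (.ofSubgroup M.normalCore)
    obtain ⟨g, m, hm, rfl⟩ := emb_dense h1 M'.toSubgroup inferInstance
      M'.isFiniteIndex'.index_ne_zero x
    obtain ⟨s, hs⟩ := exists_trunc (M'.comap (emb ι false)).toSubgroup
      (M'.comap (emb ι false)).isFiniteIndex'.index_ne_zero
    have h3 : QuotientGroup.mk' (Ev (Ph ι).range) (emb ι false (trG s g)) = 1 :=
      (QuotientGroup.eq_one_iff _).2 ((eventually_ge_atTop s).mono fun n hn => by
        rw [emb_val, Pi.mul_apply, Pi.mul_apply, trG_val, if_neg (not_lt.2 hn)]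
        simp)
    have h4 : QuotientGroup.mk' (Ev (Ph ι).range) (emb ι false ((trG s g)⁻¹ * g)) ∈
      M.normalCore := QuotientGroup.eq.1 (hs g)
    rw [map_mul, map_mul, map_inv, map_inv, h3, inv_one, one_mul] at h4
    rw [map_mul]
    exact mul_mem h4 hm

end Pool.Agent.Work.MP_d2e081_al.Rip2
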