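import Pool.Agent.Work.MP_d2e081_al.Rips.D

/-! The algebra of left translations, a point mass and some right translations. -/

set_option autoImplicit false

namespace Pool.Agent.Work.MP_d2e081_al.Rip2

open Module

open FreeGroup (of)

open Rips (PP lam ea rho lam_mul ea_apply)

open scoped Classical

variable (K : Type) [Field K] {β γ I : Type} (L : I → Subgroup (FreeGroup β)) [∀ i, (L i).Normal]
  (c : FreeGroup γ →* FreeGroup β)

/-- The generators. -/
noncomputable def gen : Option (β ⊕ β) ⊕ γ ⊕ γ → PP K L :=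
  Sum.elim (Rips.gen K L)
    (Sum.elim (fun a => rho K L (c (of a))) fun a => rho K L (c (of a)⁻¹))

/-- The algebra. -/
noncomputable def RR : Subalgebra K (PP K L) := Algebra.adjoin K (Set.range (gen K L c))

variable {K L c}

theorem gen_mem (o : Option (β ⊕ β) ⊕ γ ⊕ γ) : gen K L c o ∈ RR K L c :=
  Algebra.subset_adjoin ⟨o, rfl⟩

theorem RR_le {r : PP K L} (h : r ∈ Rips.RR K L) : r ∈ RR K L c :=
  Algebra.adjoin_mono (by
    rintro _ ⟨o, rfl⟩
    exact ⟨Sum.inl o, rfl⟩) h

theorem rho_mul (g h : FreeGroup β) : rho K L (g * h) = rho K L g * rho K L h := by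
  funext i
  refine LinearMap.ext fun v => funext fun y => ?_
  simp [rho, LinearMap.funLeft_apply, mul_assoc]

theorem rho_one : rho K L 1 = 1 := funext fun i => LinearMap.ext fun v => funext fun y => by
  simp [rho, LinearMap.funLeft_apply]

theorem rho_mem (g : FreeGroup γ) : rho K L (c g) ∈ RR K L c := by
  induction g using FreeGroup.induction_on with
  | C1 =>
    rw [map_one, rho_one]
    exact one_mem _
  | of b => exact gen_mem (Sum.inr (Sum.inl b))
  | inv_of b _ => exact gen_mem (Sum.inr (Sum.inr b))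
  | mul x y hx hy =>
    rw [map_mul, rho_mul]
    exact mul_mem hx hy

theorem rho_fin [Finite β] [∀ i, (L i).FiniteIndex] (hL : Function.Injective L) {g : FreeGroup β}
    (hg : {i | g ∉ L i}.Finite) : rho K L g ∈ RR K L c := by
  have : rho K L g = 1 + ∑ i ∈ hg.toFinset, Pi.single i (rho K L g i - 1) := by
    funext i
    rw [Pi.add_apply, Finset.sum_apply, Finset.sum_pi_single]
    split_ifs with h
    · simp
    · have : (g : FreeGroup β ⧸ L i) = 1 := (QuotientGroup.eq_one_iff _).2 (by simpa using h)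
      refine LinearMap.ext fun v => funext fun y => ?_
      simp [rho, LinearMap.funLeft_apply, this]
  rw [this]
  exact add_mem (one_mem _) (sum_mem fun i _ => RR_le (Rips.single_mem hL i _))

theorem rho_conj {g : FreeGroup β} (hg : ∀ d, rho K L (g * c d * g⁻¹) ∈ RR K L c) {r : PP K L}
    (hr : r ∈ RR K L c) : rho K L g * r * rho K L g⁻¹ ∈ RR K L c := by
  have h1 : rho K L g⁻¹ * rho K L g = 1 := by rw [← rho_mul, inv_mul_cancel, rho_one]
  have h2 : rho K L g * rho K L g⁻¹ = 1 := by rw [← rho_mul, mul_inv_cancel, rho_one]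
  have h3 : ∀ d, rho K L g * rho K L (c d) * rho K L g⁻¹ ∈ RR K L c := fun d => by
    rw [← rho_mul, ← rho_mul]
    exact hg d
  induction hr using Algebra.adjoin_induction with
  | mem x hx =>
    obtain ⟨o | b | b, rfl⟩ := hx
    · exact RR_le (Rips.rho_conj g (Rips.gen_mem o))
    · exact h3 _
    · exact h3 _
  | algebraMap a =>
    rw [← Algebra.commutes, mul_assoc, h2, mul_one]
    exact algebraMap_mem _ _
  | add x y _ _ hx hy =>
    rw [mul_add, add_mul]
    exact add_mem hx hy
  | mul x y _ _ hx hy =>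
    have := mul_mem hx hy
    rwa [mul_assoc (_ * x), ← mul_assoc (rho K L g⁻¹), ← mul_assoc (rho K L g⁻¹), h1, one_mul,
      ← mul_assoc, mul_assoc _ x y] at this

/-- Elements of the algebra have bounded two-sided propagation. -/
theorem bounded {r : PP K L} (hr : r ∈ RR K L c) :
    ∃ S : Finset (FreeGroup β × FreeGroup γ), ∀ i v y,
      (∀ s ∈ S, v ((s.1 : FreeGroup β ⧸ L i) * y * c s.2) = 0) → r i v y = 0 := by
  have h0 : ∀ r ∈ Rips.RR K L, ∃ S : Finset (FreeGroup β × FreeGroup γ), ∀ i v y,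
      (∀ s ∈ S, v ((s.1 : FreeGroup β ⧸ L i) * y * c s.2) = 0) → r i v y = 0 := fun r hr => by
    obtain ⟨S, hS⟩ := Rips.bounded hr
    refine ⟨S.image fun s => (s, 1), fun i v y h => hS i v y fun s hs => ?_⟩
    simpa using h (s, 1) (Finset.mem_image_of_mem _ hs)
  have h1 : ∀ d, ∃ S : Finset (FreeGroup β × FreeGroup γ), ∀ i v y,
      (∀ s ∈ S, v ((s.1 : FreeGroup β ⧸ L i) * y * c s.2) = 0) → rho K L (c d) i v y = 0 :=
    fun d => ⟨{(1, d)}, fun i v y h => by
      simpa [rho, LinearMap.funLeft_apply] using h (1, d) (by simp)⟩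
  induction hr using Algebra.adjoin_induction with
  | mem x hx =>
    obtain ⟨o | b | b, rfl⟩ := hx
    · exact h0 _ (Rips.gen_mem o)
    · exact h1 _
    · exact h1 _
  | algebraMap a => exact h0 _ (algebraMap_mem _ _)
  | add x y _ _ hx hy =>
    obtain ⟨S, hS⟩ := hx
    obtain ⟨T, hT⟩ := hy
    refine ⟨S ∪ T, fun i v z h => ?_⟩
    rw [Pi.add_apply, LinearMap.add_apply, Pi.add_apply,
      hS i v z fun s hs => h s (Finset.mem_union_left _ hs),
      hT i v z fun s hs => h s (Finset.mem_union_right _ hs), add_zero]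
  | mul x y _ _ hx hy =>
    obtain ⟨S, hS⟩ := hx
    obtain ⟨T, hT⟩ := hy
    refine ⟨Finset.image₂ (fun t s => (t.1 * s.1, s.2 * t.2)) T S, fun i v z h =>
      hS i _ z fun s hs => hT i v _ fun t ht => ?_⟩
    simpa [mul_assoc] using h _ (Finset.mem_image₂_of_mem ht hs)

end Pool.Agent.Work.MP_d2e081_al.Rip2
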