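import Pool.Agent.Work.MP_d2e081_al.Rip2.B

/-! The elementary group over the algebra and its extension by right translations. -/

set_option autoImplicit false

namespace Pool.Agent.Work.MP_d2e081_al.Rip2

open Module

open FreeGroup (of)

open Rips (PP lam ea rho GG XX th th_apply th_one th_mem single_EL Dm Dm_conj rp)

open scoped Classical

variable (K : Type) [Field K] {β γ I : Type} (L : I → Subgroup (FreeGroup β)) [∀ i, (L i).Normal]
  (c : FreeGroup γ →* FreeGroup β)

/-- The elementary group over the algebra. -/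
noncomputable def Gam : Subgroup (GG K L) :=
  Subgroup.closure {g | ∃ a b, ∃ r ∈ RR K L c, g = XX K L a b r}

/-- The elementary generators. -/
noncomputable def XG (a b : Fin 3) (r : RR K L c) : Gam K L c :=
  ⟨XX K L a b r, Subgroup.subset_closure ⟨a, b, r, r.2, rfl⟩⟩

variable {K L c}

theorem XG_st : St3 (XG K L c) where
  add i j r s := Subtype.ext (funext fun n => xe_st.add i j (r.1 n) (s.1 n))
  comm i j k l r s h1 h2 :=
    Subtype.ext (funext fun n => xe_st.comm i j k l (r.1 n) (s.1 n) h1 h2)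
  st i j k r s h1 h2 h3 := Subtype.ext (funext fun n => xe_st.st i j k (r.1 n) (s.1 n) h1 h2 h3)
  diag i r := Subtype.ext (funext fun n => xe_st.diag i (r.1 n))

theorem XG_gen (N : Subgroup (Gam K L c)) (h : ∀ i j r, XG K L c i j r ∈ N) : N = ⊤ := by
  refine top_unique (Subgroup.closure_closure_coe_preimage.ge.trans ((Subgroup.closure_le _).2 ?_))
  rintro ⟨_, hg⟩ ⟨i, j, r, hr, rfl⟩
  exact h i j ⟨r, hr⟩

theorem Gam_tri [Fintype β] [Fintype γ] :
    Nonempty (Tri K (Option (Option (β ⊕ β) ⊕ γ ⊕ γ) → K) (Gam K L c)) :=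
  (XG_st (K := K) (L := L) (c := c)).tri (K := K) (fun i => ⟨gen K L c i, gen_mem i⟩) (by
    refine top_unique (Algebra.adjoin_adjoin_coe_preimage.ge.trans (Algebra.adjoin_mono ?_))
    rintro ⟨_, hg⟩ ⟨i, rfl⟩
    exact ⟨i, rfl⟩) XG_gen

theorem th_conj {g : FreeGroup β} (hg : ∀ d, rho K L (g * c d * g⁻¹) ∈ RR K L c) {x : GG K L} (hx : x ∈ Gam K L c) :
    th K L g * x * (th K L g)⁻¹ ∈ Gam K L c := by
  refine (show Gam K L c ≤ (Gam K L c).comap (MulAut.conj (th K L g)).toMonoidHom from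
    (Subgroup.closure_le _).2 ?_) hx
  rintro _ ⟨a, b, r, hr, rfl⟩
  refine Subgroup.subset_closure ⟨a, b, _, rho_conj hg hr, funext fun i => ?_⟩
  refine (Dm_conj (rp _ (g : FreeGroup β ⧸ L i)) a b (r i)).trans (congrArg (xe a b) ?_)
  refine LinearMap.ext fun v => funext fun y => ?_
  simp [rho, rp, LinearMap.funLeft_apply]

theorem bounded3 {x : GG K L} (hx : x ∈ Gam K L c) : ∃ S : Finset (FreeGroup β × FreeGroup γ), ∀ i v y,
    (∀ s ∈ S, ∀ k, v k ((s.1 : FreeGroup β ⧸ L i) * y * c s.2) = 0) → ∀ k, (x i).val v k y = 0 := by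
  have key : ∀ a b, ∀ r ∈ RR K L c, ∃ S : Finset (FreeGroup β × FreeGroup γ), ∀ i v y,
      (∀ s ∈ S, ∀ k, v k ((s.1 : FreeGroup β ⧸ L i) * y * c s.2) = 0) →
        ∀ k, (XX K L a b r i).val v k y = 0 := fun a b r hr => by
    obtain ⟨S, hS⟩ := bounded hr
    refine ⟨insert 1 S, fun i v y h k => ?_⟩
    have h1 := h 1 (Finset.mem_insert_self _ _) k
    rw [Prod.fst_one, Prod.snd_one, map_one, QuotientGroup.mk_one, one_mul, mul_one] at h1
    have h2 := hS i (v b) y fun s hs => h s (Finset.mem_insert_of_mem hs) b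
    by_cases hab : a = b
    · rw [XX, hab, xe_diag]
      exact h1
    · rw [XX, xe_apply hab, Pi.add_apply, Pi.add_apply, h1, zero_add]
      by_cases hk : k = a
      · rw [hk, Pi.single_eq_same, h2]
      · rw [Pi.single_eq_of_ne hk, Pi.zero_apply]
  induction hx using Subgroup.closure_induction'' with
  | one => simpa [XX, xe_diag] using key 0 0 0 (zero_mem _)
  | mem x hx =>
    obtain ⟨a, b, r, hr, rfl⟩ := hx
    exact key a b r hr
  | inv_mem x hx =>
    obtain ⟨a, b, r, hr, rfl⟩ := hx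
    have : (XX K L a b r)⁻¹ = XX K L a b (-r) := funext fun i => (xe_st.neg a b (r i)).symm
    rw [this]
    exact key a b _ (neg_mem hr)
  | mul x y _ _ hx hy =>
    obtain ⟨S, hS⟩ := hx
    obtain ⟨T, hT⟩ := hy
    refine ⟨Finset.image₂ (fun t s => (t.1 * s.1, s.2 * t.2)) T S, fun i v z h =>
      hS i _ z fun s hs => hT i v _ fun t ht k => ?_⟩
    simpa [mul_assoc] using h _ (Finset.mem_image₂_of_mem ht hs) k

theorem th_bounded {g : FreeGroup β} (h : th K L g ∈ Gam K L c) :
    ∃ S : Finset (FreeGroup β × FreeGroup γ), ∀ i (y : FreeGroup β ⧸ L i), ∃ s ∈ S,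
      (s.1 : FreeGroup β ⧸ L i) * y * c s.2 = y * g := by
  obtain ⟨S, hS⟩ := bounded3 h
  refine ⟨S, fun i y => ?_⟩
  by_contra hc
  push Not at hc
  have := hS i (fun _ => Pi.single (y * g) 1) y (fun s hs _ => Pi.single_eq_of_ne (hc s hs) _) 0
  rw [th_apply, Pi.single_eq_same] at this
  exact one_ne_zero this

theorem tail [Finite β] [∀ i, (L i).FiniteIndex] (hL : Function.Injective L)
    (U : Subgroup (Gam K L c)) [U.Normal] [U.FiniteIndex] :
    {i | ¬ ∀ a b r, XX K L a b (Pi.single i r) ∈ U.map (Gam K L c).subtype}.Finite := by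
  have hc : ∀ a : Gam K L c, ∀ g ∈ U, a * g * a⁻¹ ∈ U := fun a g hg => ‹U.Normal›.conj_mem g hg a
  refine Set.Finite.of_injOn (t := Set.univ) (f := fun i =>
    (XG K L c 2 0 ⟨Pi.single i 1, RR_le (Rips.single_mem hL i 1)⟩ : Gam K L c ⧸ U)) (Set.mapsTo_univ _ _)
    (fun i hi m _ e => ?_) Set.finite_univ
  by_contra him
  refine hi fun a b r => ?_
  rw [eq_comm, QuotientGroup.eq, ← (XG_st (K := K) (L := L) (c := c)).neg, ← (XG_st (K := K) (L := L) (c := c)).add] at e
  refine ⟨_, (XG_st (K := K) (L := L) (c := c)).mul_left (s := ⟨Pi.single i r, RR_le (Rips.single_mem hL i r)⟩)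
    ((XG_st (K := K) (L := L) (c := c)).all (fun i j g hg => ⟨hc _ g hg, by simpa using hc (XG K L c i j 1)⁻¹ g hg⟩) e)
    (fun i j => hc _) a b, congrArg (XX K L a b) (funext fun n => ?_)⟩
  by_cases h : n = i
  · subst h
    simp [him]
  · simp [h]

theorem white_apply {U : Type} [AddCommGroup U] [Module K U] {a a' : End K U}
    (h1 : ∀ x, a (a' x) = x) (h2 : ∀ x, a' (a x) = x) {i j : Fin 3} (h : i ≠ j) (v : Fin 3 → U)
    (k : Fin 3) :
    (xe i j a * xe j i (-a') * xe i j a * (xe i j (-1) * xe j i 1 * xe i j (-1))).val v k =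
      if k = i then a (v i) else if k = j then a' (v j) else v k := by
  simp only [Units.val_mul, End.mul_apply, xe_apply h, xe_apply h.symm]
  by_cases h3 : k = i
  · subst h3
    simp [h, h.symm, h1, h2]
  · by_cases h4 : k = j
    · subst h4
      simp [h, h.symm, h1, h2]
    · simp [h3, h4]

variable (K L) in
/-- Right translations in the three coordinates. -/
def Dv : (Fin 3 → FreeGroup β) →* GG K L := MonoidHom.pi fun i => MonoidHom.toHomUnits
  { toFun g := LinearMap.pi fun k => rho K L (g k) i ∘ₗ LinearMap.proj k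
    map_one' := LinearMap.ext fun v => funext fun k => by simp [rho_one]
    map_mul' g h := LinearMap.ext fun v => funext fun k => by simp [rho_mul] }

theorem Dv_apply (g : Fin 3 → FreeGroup β) (i : I) (v : Fin 3 → FreeGroup β ⧸ L i → K)
    (k : Fin 3) : (Dv K L g i).val v k = rho K L (g k) i (v k) := rfl

theorem Dv_mem (d : FreeGroup γ) {a b : Fin 3} (h : a ≠ b) :
    Dv K L (Pi.mulSingle a (c d) * Pi.mulSingle b (c d⁻¹)) ∈ Gam K L c := by
  have m : ∀ a b, ∀ r ∈ RR K L c, XX K L a b r ∈ Gam K L c := fun a b r hr =>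
    Subgroup.subset_closure ⟨a, b, r, hr, rfl⟩
  refine (congrArg (· ∈ Gam K L c) (funext fun i => Units.ext (LinearMap.ext fun v =>
    funext fun k => ?_))).mp (mul_mem (mul_mem (mul_mem (m a b _ (rho_mem d))
      (m b a _ (neg_mem (rho_mem d⁻¹)))) (m a b _ (rho_mem d))) (mul_mem (mul_mem
        (m a b _ (neg_mem (one_mem _))) (m b a _ (one_mem _))) (m a b _ (neg_mem (one_mem _)))))
  refine (white_apply (a := rho K L (c d) i) (a' := rho K L (c d⁻¹) i) (fun x => ?_) (fun x => ?_)
    h v k).trans ?_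
  · rw [← End.mul_apply, ← Pi.mul_apply, ← rho_mul, ← map_mul, mul_inv_cancel, map_one, rho_one]
    rfl
  · rw [← End.mul_apply, ← Pi.mul_apply, ← rho_mul, ← map_mul, inv_mul_cancel, map_one, rho_one]
    rfl
  · rw [Dv_apply]
    split_ifs with h3 h4
    · subst h3
      simp [h]
    · subst h4
      simp [h3]
    · simp [h3, h4, rho_one]

theorem th_comm (d e : FreeGroup γ) : th K L (c (d * e * d⁻¹ * e⁻¹)) ∈ Gam K L c := by
  have h1 : ∀ a b : Fin 3, a ≠ b →
      Dv K L (Pi.mulSingle a (c (d * e * d⁻¹ * e⁻¹))) ∈ Gam K L c := fun a b h => by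
    have := mul_mem (mul_mem (Dv_mem (K := K) (L := L) (c := c) (d * e) h) (Dv_mem d⁻¹ h))
      (Dv_mem e⁻¹ h)
    rw [← map_mul, ← map_mul] at this
    refine (congrArg (fun g => Dv K L g ∈ Gam K L c) (funext fun k => ?_)).mp this
    by_cases h3 : k = a
    · subst h3
      simp [h]
    · by_cases h4 : k = b
      · subst h4
        simp [h3]
      · simp [h3, h4]
  have := mul_mem (mul_mem (h1 0 1 (by decide)) (h1 1 2 (by decide))) (h1 2 0 (by decide))
  rw [← map_mul, ← map_mul] at this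
  refine (congrArg (· ∈ Gam K L c) (funext fun i => Units.ext (LinearMap.ext fun v =>
    funext fun k => funext fun y => ?_))).mp this
  rw [Dv_apply, th_apply]
  fin_cases k <;> simp [rho, LinearMap.funLeft_apply]

end Pool.Agent.Work.MP_d2e081_al.Rip2
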