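import Pool.Agent.Work.MP_d2e081_al.Rips.E

/-! Levels with two-sided counting, and converses of the criteria for profinite completions. -/

set_option autoImplicit false

namespace Pool.Agent.Work.MP_d2e081_al.Rip2

open Filter

open FreeGroup (of)

open Rips (approx qq qq_map JJ)

open scoped Classical

theorem levels {α Q : Type} [Finite α] [Group Q] [Infinite Q] (π : FreeGroup α →* Q)
    (hπ : Function.Surjective π) (h : LEF Q) :
    ∃ (I : Type) (L : I → Subgroup (FreeGroup (Option α))) (_ : ∀ i, (L i).Normal)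
      (_ : ∀ i, (L i).FiniteIndex), Function.Injective L ∧
      (∀ w, π w = 1 → {i | FreeGroup.map some w ∉ L i}.Finite) ∧
      ∀ (w : FreeGroup α) (S : Finset (FreeGroup (Option α) × FreeGroup α)),
        (∀ i (y : FreeGroup (Option α) ⧸ L i), ∃ s ∈ S, (s.1 : FreeGroup (Option α) ⧸ L i) * y *
          (FreeGroup.map some s.2 : FreeGroup (Option α)) =
          y * (FreeGroup.map some w : FreeGroup (Option α))) → ∃ s ∈ S, π s.2 = π w := by
  obtain ⟨P, _, _, p, hp⟩ := approx π hπ h
  refine ⟨Set.range fun n => (qq (p n)).ker, Subtype.val, ?_, ?_, Subtype.val_injective,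
    fun w hw => ?_, fun w S hS => ?_⟩
  · rintro ⟨_, n, rfl⟩
    exact MonoidHom.normal_ker _
  · rintro ⟨_, n, rfl⟩
    exact Subgroup.finiteIndex_ker _
  · have := hp w
    rw [← Nat.cofinite_eq_atTop, eventually_cofinite] at this
    refine (this.image fun n => ⟨_, n, rfl⟩).subset ?_
    rintro ⟨_, n, rfl⟩ hn
    refine ⟨n, fun e => hn ?_, rfl⟩
    change qq (p n) _ = 1
    rw [qq_map, e.2 hw, map_one]
  · by_contra hw
    push Not at hw
    let x : Fin (S.card + 1) → FreeGroup α := fun k =>
      Function.surjInv hπ (Infinite.natEmbedding Q k)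
    have hx : ∀ k l, π ((x k)⁻¹ * x l) = 1 → k = l := fun k l e => by
      rw [map_mul, map_inv, inv_mul_eq_one, Function.surjInv_eq hπ, Function.surjInv_eq hπ] at e
      exact Fin.ext ((Infinite.natEmbedding Q).injective e)
    obtain ⟨n, h1, h2⟩ := ((eventually_all.2 fun s : S => hp (w * s.1.2⁻¹)).and
      (eventually_all.2 fun k : Fin (S.card + 1) × Fin (S.card + 1) =>
        hp ((x k.1)⁻¹ * x k.2))).exists
    choose s h3 h4 using fun k => hS ⟨_, n, rfl⟩
      ((FreeGroup.map some (x k) * of none : FreeGroup (Option α)) : _ ⧸ (qq (p n)).ker)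
    have h5 : ∀ k, qq (p n) (s k).1 none = some (p n (x k) * p n (w * (s k).2⁻¹)) := fun k => by
      have := h4 k
      rw [← eq_mul_inv_iff_mul_eq, mul_assoc, ← QuotientGroup.mk_inv, ← QuotientGroup.mk_mul,
        ← QuotientGroup.mk_mul, ← QuotientGroup.mk_mul, ← map_inv, ← map_mul, QuotientGroup.eq,
        MonoidHom.mem_ker, map_mul, map_inv, inv_mul_eq_one] at this
      have h6 := DFunLike.congr_fun this (some 1)
      have h7 : qq (p n) (of none) = Equiv.swap none (some 1) := by simp [qq]
      have h8 : p n (w * (s k).2⁻¹) ≠ 1 := fun e => hw _ (h3 k) (by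
        have := (h1 ⟨_, h3 k⟩).1 e
        rwa [map_mul, map_inv, mul_inv_eq_one, eq_comm] at this)
      generalize w * (s k).2⁻¹ = w' at h6 h8
      simpa [qq_map, h7, JJ, Equiv.swap_apply_of_ne_of_ne, h8] using h6
    have := Fintype.card_le_of_injective (fun k => (⟨s k, h3 k⟩ : S)) fun k l e => hx k l
      ((h2 (k, l)).1 (by
        have h6 := h5 k
        rw [show s k = s l from congrArg Subtype.val e, h5 l, eq_comm] at h6
        rw [map_mul, map_inv, inv_mul_eq_one]
        exact mul_right_cancel (Option.some.inj h6)))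
    simp at this

section
open CategoryTheory ProfiniteGrp ProfiniteGrp.ProfiniteCompletion

variable {G H : Type} [Group G] [Group H] {u : G →* H}

theorem map_coord (M : FiniteIndexNormalSubgroup H) (z : completion (GrpCat.of G)) :
    ((profiniteCompletion.map (GrpCat.ofHom u)).hom z).1 M =
      (QuotientGroup.map (M.comap u).toSubgroup M.toSubgroup u le_rfl (z.1 (M.comap u)) :
        H ⧸ M.toSubgroup) := by
  let w : completion (GrpCat.of G) ⟶ completion (GrpCat.of H) :=
    lift (GrpCat.ofHom u ≫ eta (GrpCat.of H))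
  have e2 : ∀ g, w.hom (etaFn (GrpCat.of G) g) = etaFn (GrpCat.of H) (u g) := fun g =>
    ConcreteCategory.congr_hom (lift_eta (GrpCat.ofHom u ≫ eta (GrpCat.of H))) g
  let κ : (diagram (GrpCat.of G)).obj (M.comap u) → (diagram (GrpCat.of H)).obj M :=
    QuotientGroup.map (M.comap u).toSubgroup M.toSubgroup u le_rfl
  have : DiscreteTopology ((diagram (GrpCat.of G)).obj (M.comap u)) := ⟨rfl⟩
  exact congrFun ((denseRange (GrpCat.of G)).equalizer
    ((continuous_apply M).comp (continuous_subtype_val.comp w.hom.continuous_toFun))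
    ((continuous_of_discreteTopology (f := κ)).comp
      ((continuous_apply (M.comap u)).comp continuous_subtype_val))
    (funext fun g => congrArg (fun z => z.1 M) (e2 g))) z

theorem dense_of_surj (h : Function.Surjective (profiniteCompletion.map (GrpCat.ofHom u)).hom)
    (M : Subgroup H) [M.Normal] [M.FiniteIndex] (x : H) : ∃ g, (u g)⁻¹ * x ∈ M := by
  obtain ⟨z, hz⟩ := h (etaFn (GrpCat.of H) x)
  have := map_coord (u := u) (.ofSubgroup M) z
  obtain ⟨g, hg⟩ := QuotientGroup.mk_surjective
    (s := ((FiniteIndexNormalSubgroup.ofSubgroup M).comap u).toSubgroup) (z.1 _)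
  rw [hz, ← hg] at this
  exact ⟨g, QuotientGroup.eq.1 this.symm⟩

theorem cong_of_inj (h : Function.Injective (profiniteCompletion.map (GrpCat.ofHom u)).hom)
    (N : Subgroup G) [N.Normal] [N.FiniteIndex] :
    ∃ M : Subgroup H, M.FiniteIndex ∧ M.comap u ≤ N := by
  by_contra hc
  push Not at hc
  let N' : FiniteIndexNormalSubgroup G := .ofSubgroup N
  let C : FiniteIndexNormalSubgroup H → Set (completion (GrpCat.of G)) := fun M =>
    {x | x.1 N' ≠ 1 ∧ x.1 (M.comap u) = 1}
  have cl : ∀ M, IsClosed (C M) := fun M => by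
    have : ∀ A, DiscreteTopology ((diagram (GrpCat.of G)).obj A) := fun _ => ⟨rfl⟩
    exact ((isClosed_discrete {a | a ≠ 1}).preimage
      ((continuous_apply N').comp continuous_subtype_val)).inter ((isClosed_discrete {1}).preimage
        ((continuous_apply (M.comap u)).comp continuous_subtype_val))
  have mono : ∀ M M', M ≤ M' → C M ⊆ C M' := fun M M' e x hx => ⟨hx.1, by
    have := x.2 (homOfLE (FiniteIndexNormalSubgroup.comap_mono u e))
    rw [hx.2, map_one] at this
    exact this.symm⟩
  have : Nonempty (FiniteIndexNormalSubgroup H) := ⟨.ofSubgroup ⊤⟩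
  obtain ⟨x, hx⟩ := IsCompact.nonempty_iInter_of_directed_nonempty_isCompact_isClosed C
    (fun M M' => ⟨M ⊓ M', mono _ _ inf_le_left, mono _ _ inf_le_right⟩) (fun M => by
      obtain ⟨g, h1, h2⟩ := SetLike.not_le_iff_exists.1 (hc M.toSubgroup inferInstance)
      exact ⟨etaFn (GrpCat.of G) g, fun e => h2 ((QuotientGroup.eq_one_iff g).1 e),
        (QuotientGroup.eq_one_iff g).2 h1⟩) (fun M => (cl M).isCompact) cl
  rw [Set.mem_iInter] at hx
  have h1 : x = 1 := h (Subtype.ext (funext fun M => by
    rw [map_coord, map_coord, (hx M).2]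
    rfl))
  exact (hx this.some).1 (h1 ▸ rfl)

end

end Pool.Agent.Work.MP_d2e081_al.Rip2
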