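import Pool.Agent.Work.MP_d2e081_al.Rip2.C
import Pool.Agent.Work.MP_d2e081_al.Rip2.D

/-! Assembly of the exact sequence over a perfect kernel. -/

set_option autoImplicit false

namespace Pool.Agent.Work.MP_d2e081_al.Rip2

open Module

open Rips (PP rho GG XX th th_mem rf_sub cong_of_tail)

open scoped Classical

open Pool.Agent.Work.MP_3b70de_al.E (K8)

variable {β I : Type} {L : I → Subgroup (FreeGroup β)} [∀ i, (L i).Normal]
  [∀ i, (L i).FiniteIndex]

theorem core [Finite β] (hL : Function.Injective L) {F Γ Q : Type} [Group F] [Group.FG F]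
    [Group Γ] [Group Q] (j : F →* FreeGroup β) (p : F →* Γ) (hp : Function.Surjective p)
    (π : Γ →* Q) (hπ : Function.Surjective π) [Group.FG π.ker] (hk : ⁅π.ker, π.ker⁆ = π.ker)
    (ha : ∀ w, p w = 1 → {i | j w ∉ L i}.Finite)
    (hb : ∀ (w : F) (S : Finset (FreeGroup β × F)), (∀ i (y : FreeGroup β ⧸ L i), ∃ s ∈ S,
      (s.1 : FreeGroup β ⧸ L i) * y * j s.2 = y * j w) → ∃ s ∈ S, p s.2 = p w) :
    ∃ (G H : Type) (_ : Group G) (_ : Group H) (u : G →* H) (f : H →* Q),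
      Function.Injective u ∧ Function.Surjective f ∧ u.range = f.ker ∧
      Group.FG G ∧ Group.FG H ∧ Group.ResiduallyFinite G ∧ Group.ResiduallyFinite H ∧
      Kazhdan G ∧ HasFA G ∧ ((∀ N : Subgroup π.ker, N.Normal → N.FiniteIndex →
        ∃ M : Subgroup Γ, M.FiniteIndex ∧ M.comap π.ker.subtype ≤ N) →
        ∀ N : Subgroup G, N.Normal → N.index ≠ 0 →
          ∃ M : Subgroup H, M.Normal ∧ M.index ≠ 0 ∧ M.comap u ≤ N) := by
  obtain ⟨γ, _, q, hq⟩ := Group.fg_iff_exists_freeGroup_hom_surjective_finite.1 ‹Group.FG π.ker›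
  let k : FreeGroup γ →* F := FreeGroup.lift fun a => Function.surjInv hp (q (FreeGroup.of a))
  have k1 : ∀ d, p (k d) = q d := DFunLike.congr_fun (FreeGroup.ext_hom (p.comp k)
    (π.ker.subtype.comp q) fun a => by simp [k, Function.surjInv_eq hp])
  have k2 : ∀ w, π (p w) = 1 → ∃ d, p (w * (k d)⁻¹) = 1 := fun w hw => by
    obtain ⟨d, hd⟩ := hq ⟨p w, hw⟩
    exact ⟨d, by rw [map_mul, map_inv, k1, hd, mul_inv_cancel]⟩
  let c : FreeGroup γ →* FreeGroup β := j.comp k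
  have := Fintype.ofFinite β
  have := Fintype.ofFinite γ
  obtain ⟨t⟩ := Gam_tri (K := K8) (L := L) (c := c)
  have hG := t.fg
  have hr : ∀ w d, rho K8 L (j w * c d * (j w)⁻¹) ∈ RR K8 L c := fun w d => by
    obtain ⟨e, he⟩ := k2 (w * k d * w⁻¹) (by
      rw [map_mul p, map_mul p, map_inv p, k1]
      exact (MonoidHom.normal_ker π).conj_mem _ (q d).2 _)
    have := mul_mem (rho_fin (K := K8) (c := c) hL (ha _ he)) (rho_mem e)
    rw [← rho_mul] at this
    simpa [c] using this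
  let θ' : F →* GG K8 L := (th K8 L).comp j
  have t1 : ∀ w, p w = 1 → θ' w ∈ Gam K8 L c := fun w hw => th_mem (ha w hw) fun i _ a b r =>
    Subgroup.subset_closure ⟨a, b, _, RR_le (Rips.single_mem hL i r), rfl⟩
  have t2 : ∀ w, π (p w) = 1 → θ' w ∈ Gam K8 L c := fun w hw => by
    have : ⁅π.ker, π.ker⁆ ≤ ((Gam K8 L c).comap θ').map p :=
      Subgroup.commutator_le.2 fun a ha b hb => by
        obtain ⟨d, hd⟩ := hq ⟨a, ha⟩
        obtain ⟨e, he⟩ := hq ⟨b, hb⟩
        refine ⟨k (d * e * d⁻¹ * e⁻¹), th_comm d e, ?_⟩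
        simp [k1, hd, he, commutatorElement_def]
    obtain ⟨w', h1, h2⟩ := this (hk.ge hw)
    have := mul_mem (t1 (w * w'⁻¹) (by rw [map_mul, map_inv, h2, mul_inv_cancel])) h1
    rwa [← map_mul, inv_mul_cancel_right] at this
  let H : Subgroup (GG K8 L) := Gam K8 L c ⊔ θ'.range
  let u : Gam K8 L c →* H := Subgroup.inclusion le_sup_left
  let θ : F →* H := θ'.codRestrict H fun w => Subgroup.mem_sup_right ⟨w, rfl⟩
  have hs : ∀ h : H, ∃ g w, h = u g * θ w := by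
    let T : Subgroup (GG K8 L) :=
      { carrier := {x | ∃ g ∈ Gam K8 L c, ∃ w, x = g * θ' w}
        one_mem' := ⟨1, one_mem _, 1, by rw [map_one, mul_one]⟩
        mul_mem' := by
          rintro _ _ ⟨g, hg, w, rfl⟩ ⟨g', hg', w', rfl⟩
          refine ⟨_, mul_mem hg (th_conj (hr w) hg'), w * w', ?_⟩
          rw [map_mul]
          change _ = g * (θ' w * g' * (θ' w)⁻¹) * _
          group
        inv_mem' := by
          rintro _ ⟨g, hg, w, rfl⟩
          refine ⟨_, th_conj (hr w⁻¹) (inv_mem hg), w⁻¹, ?_⟩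
          change _ = θ' w⁻¹ * g⁻¹ * (θ' w⁻¹)⁻¹ * _
          rw [map_inv]
          group }
    have hT : H ≤ T := sup_le (fun g hg => ⟨g, hg, 1, by rw [map_one, mul_one]⟩) (by
      rintro _ ⟨w, rfl⟩
      exact ⟨1, one_mem _, w, (one_mul _).symm⟩)
    intro h
    obtain ⟨g, hg, w, e⟩ := hT h.2
    exact ⟨⟨g, hg⟩, w, Subtype.ext e⟩
  have hα : ∀ h : H, ∃ α : Gam K8 L c →* Gam K8 L c, ∀ g, u (α g) = h * u g * h⁻¹ := fun h => by
    obtain ⟨a, w, rfl⟩ := hs h
    refine ⟨(MulAut.conj a).toMonoidHom.comp (((MulAut.conj (θ' w)).toMonoidHom.comp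
      (Gam K8 L c).subtype).codRestrict _ fun g => th_conj (hr w) g.2), fun g => Subtype.ext ?_⟩
    change a.1 * (θ' w * g.1 * (θ' w)⁻¹) * a.1⁻¹ = a.1 * θ' w * g.1 * (a.1 * θ' w)⁻¹
    group
  have hk : ∀ w g, u g = θ w → π (p w) = 1 := fun w g e => by
    obtain ⟨S, hS⟩ := th_bounded (K := K8)
      ((show g.1 = th K8 L (j w) from congrArg Subtype.val e) ▸ g.2)
    obtain ⟨_, hs, e⟩ := hb w (S.image fun s => (s.1, k s.2)) fun i y =>
      let ⟨s, h1, h2⟩ := hS i y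
      ⟨_, Finset.mem_image_of_mem _ h1, h2⟩
    obtain ⟨s, -, rfl⟩ := Finset.mem_image.1 hs
    rw [← e, k1]
    exact (q s.2).2
  have hn : u.range.Normal := ⟨by
    rintro _ ⟨g, rfl⟩ h
    obtain ⟨α, hα⟩ := hα h
    exact ⟨_, hα g⟩⟩
  let ψ : F →* H ⧸ u.range := (QuotientGroup.mk' _).comp θ
  have hψ : Function.Surjective ψ := fun q => by
    obtain ⟨h, rfl⟩ := QuotientGroup.mk_surjective q
    obtain ⟨g, w, rfl⟩ := hs h
    refine ⟨w, ?_⟩
    rw [QuotientGroup.mk_mul, (QuotientGroup.eq_one_iff (N := u.range) (u g)).2 ⟨g, rfl⟩, one_mul]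
    rfl
  have hψ' : ψ.ker ≤ (π.comp p).ker := fun w hw => by
    obtain ⟨g, hg⟩ := (QuotientGroup.eq_one_iff _).1 hw
    exact hk w g hg
  let f : H →* Q := (ψ.liftOfSurjective hψ ⟨π.comp p, hψ'⟩).comp (QuotientGroup.mk' _)
  have f1 : ∀ w, f (θ w) = π (p w) := fun w => MonoidHom.liftOfRightInverse_comp_apply ψ _
    (Function.rightInverse_surjInv hψ) ⟨π.comp p, hψ'⟩ w
  have f2 : ∀ g, f (u g) = 1 := fun g => by
    rw [MonoidHom.comp_apply, QuotientGroup.mk'_apply,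
      (QuotientGroup.eq_one_iff (N := u.range) (u g)).2 ⟨g, rfl⟩, map_one]
  refine ⟨Gam K8 L c, H, inferInstance, inferInstance, u, f, Subgroup.inclusion_injective _,
    fun q => ?_, le_antisymm ?_ fun h hh => ?_, hG, ?_, rf_sub _, rf_sub _, t.kazhdan, t.hasFA,
    fun hK => cong_of_tail θ hα hs fun U _ _ => ?_⟩
  · obtain ⟨w, rfl⟩ := (hπ.comp hp) q
    exact ⟨_, f1 w⟩
  · rintro _ ⟨g, rfl⟩
    exact f2 g
  · obtain ⟨g, w, rfl⟩ := hs h
    rw [MonoidHom.mem_ker, map_mul, f1, f2, one_mul] at hh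
    exact mul_mem ⟨g, rfl⟩ ⟨⟨_, t2 w hh⟩, rfl⟩
  · exact (Group.fg_iff_subgroup_fg _).2 (((Group.fg_iff_subgroup_fg _).1 hG).sup
      ((Group.fg_iff_subgroup_fg _).1 inferInstance))
  · have hT := (tail hL U).to_subtype
    let Γ0 : Subgroup F :=
      ⨅ i : {i | ¬ ∀ a b r, XX K8 L a b (Pi.single i r) ∈ U.map (Gam K8 L c).subtype},
        (L i).comap j
    have g1 : Γ0.FiniteIndex := Subgroup.finiteIndex_iInf fun i => (FiniteIndexNormalSubgroup.comap
      j ⟨L i, inferInstance, inferInstance⟩).isFiniteIndex'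
    have g2 : Γ0.Normal := Subgroup.normal_iInf_normal fun i => inferInstance
    have g3 : ∀ w ∈ Γ0, p w = 1 → θ' w ∈ U.map (Gam K8 L c).subtype := fun w hw h =>
      th_mem (ha w h) fun i hi => by
        by_contra hc
        exact hi (Subgroup.mem_iInf.1 hw ⟨i, hc⟩)
    let ν : FreeGroup γ →* Gam K8 L c := (θ'.comp k).codRestrict _ fun d =>
      t2 _ (by rw [k1]; exact (q d).2)
    let M0 : Subgroup (FreeGroup γ) := U.comap ν ⊓ Γ0.comap k
    have m1 : (U.comap ν).FiniteIndex :=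
      (FiniteIndexNormalSubgroup.comap ν (.ofSubgroup U)).isFiniteIndex'
    have m2 : (Γ0.comap k).FiniteIndex :=
      (FiniteIndexNormalSubgroup.comap k (.ofSubgroup Γ0)).isFiniteIndex'
    obtain ⟨M, hM, h⟩ := hK (M0.map q) (Subgroup.Normal.map inferInstance q hq)
      ⟨ne_zero_of_dvd_ne_zero Subgroup.FiniteIndex.index_ne_zero (M0.index_map_dvd hq)⟩
    have m3 : (M.comap p).FiniteIndex := ⟨by
      rw [Subgroup.index_comap_of_surjective _ hp]
      exact hM.index_ne_zero⟩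
    refine ⟨M.comap p ⊓ Γ0, inferInstance, fun w hw g e => ?_⟩
    obtain ⟨d, hd, h1⟩ := h (x := ⟨p w, hk w g e⟩) hw.1
    obtain ⟨g', h2, h3⟩ := g3 (w * (k d)⁻¹) (mul_mem hw.2 (inv_mem hd.2))
      (by rw [map_mul, map_inv, k1, h1, mul_inv_cancel])
    have : g = g' * ν d := Subtype.ext (by
      change _ = (Gam K8 L c).subtype g' * θ' (k d)
      rw [h3, ← map_mul, inv_mul_cancel_right]
      exact congrArg Subtype.val e)
    rw [this]
    exact mul_mem h2 hd.1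

end Pool.Agent.Work.MP_d2e081_al.Rip2
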